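import Pool.Agent.Y835.ZM.Main

/-!
The zero-information Arthur-Merlin complexity of set disjointness is at least a power of `n`, and it
is superlogarithmic even for sets of polylogarithmic size.

`AMProtocol`, `AMProtocol.IsZAM` and `ZAM` are defined in `Pool.Agent.H570R2.ZamDefs`, and `DISJ` in
`Pool.Agent.H841.Embed` (both are files of the starting point); `SparseDISJ` is defined here.
-/

set_option autoImplicit false

namespace Pool.Agent.Results.MP_052029_lc.PolynomialLowerBound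

open Filter Topology Pool.Agent.H570R2 Pool.Agent.H841

/-- The subsets of `{0, …, n - 1}` with at most `k` elements, as 0-1-vectors. -/
abbrev SparseSet (n k : ℕ) : Type :=
  {x : Fin n → Bool // (Finset.univ.filter (fun i => x i = true)).card ≤ k}

/-- Sparse set disjointness: both players have a set with at most `k` elements. -/
def SparseDISJ (n k : ℕ) (x y : SparseSet n k) : Bool := DISJ n x.1 y.1

/-- Zero-information Arthur-Merlin complexity of set disjointness.
(1) `ZAM(DISJ_n) ≥ n^(1/118)` for all large `n`.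
(2) The same holds for every two-party function `f` which contains `DISJ_n`.
(3) If `t ≥ 10⁶`, `t ^ 118 ≤ n ≤ e ^ t` and `k ≥ t ^ 18`, then disjointness of subsets of an
`n`-element set with at most `k` elements has complexity at least `(t / 2) log₂ n`.
(4) If `k(n) ≥ (log n) ^ 19` for all large `n`, the complexity of disjointness of sets with at most
`k(n)` elements, divided by `log₂ n`, tends to infinity.
(5) `ZAM(DISJ_n) / log₂ n → ∞`. -/
theorem result :
    (∀ᶠ n : ℕ in atTop,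
      ENNReal.ofReal ((n : ℝ) ^ ((1 : ℝ) / 118)) ≤ ((ZAM (DISJ n) : ℕ∞) : ENNReal)) ∧
    (∀ᶠ n : ℕ in atTop, ∀ (X Y : Type) (f : X → Y → Bool) (φ : (Fin n → Bool) → X)
      (ψ : (Fin n → Bool) → Y), (∀ x y, f (φ x) (ψ y) = DISJ n x y) →
      ENNReal.ofReal ((n : ℝ) ^ ((1 : ℝ) / 118)) ≤ ((ZAM f : ℕ∞) : ENNReal)) ∧
    (∀ t n k : ℕ, 1000000 ≤ t → t ^ 118 ≤ n → Real.log n ≤ t → t ^ 18 ≤ k →
      ENNReal.ofReal ((t : ℝ) / 2 * Real.logb 2 n) ≤
        ((ZAM (SparseDISJ n k) : ℕ∞) : ENNReal)) ∧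
    (∀ k : ℕ → ℕ, (∀ᶠ n : ℕ in atTop, Real.log n ^ 19 ≤ (k n : ℝ)) →
      Tendsto (fun n : ℕ => ((ZAM (SparseDISJ n (k n)) : ℕ∞) : ENNReal) /
        ENNReal.ofReal (Real.logb 2 n)) atTop (𝓝 ⊤)) ∧
    Tendsto (fun n : ℕ => ((ZAM (DISJ n) : ℕ∞) : ENNReal) / ENNReal.ofReal (Real.logb 2 n))
      atTop (𝓝 ⊤) := by
  refine ⟨Pool.Agent.Y835.ZM.zam_power, ?_, ?_, ?_, Pool.Agent.Y835.ZM.zam_superlog⟩
  · filter_upwards [Pool.Agent.Y835.ZM.zam_power] with n hn X Y f φ ψ h
    exact hn.trans (ENat.toENNReal_le.2 (Pool.Agent.Y835.ZM.zam_mono f (DISJ n) φ ψ h))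
  · intro t n k h1 h2 h3 h4
    exact Pool.Agent.Y835.ZM.zam_sparse t n k h1 h2 h3 h4
  · intro k hk
    exact Pool.Agent.Y835.ZM.zam_polylog k hk

end Pool.Agent.Results.MP_052029_lc.PolynomialLowerBound
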